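import Pool.Agent.H752.GM.Stubs

/-! Task T1: functions with small certificates do not see a hit. -/

namespace Pool.Agent.H752.GM

open Pool.Agent.NPC Pool.Agent.H620R2.Gauge Finset H568R2 MeasureTheory

namespace T1

variable {I X : Type} [Fintype I] [DecidableEq I] [Fintype X] [DecidableEq X]

lemma unif_sum : ∑ a, unif a = 1 := by simp [unif]

lemma unif_nonneg (a : Bool) : 0 ≤ unif a := by simp [unif]

lemma Ex_unif (F : (I → Bool) → ℝ) :
    Ex unif F = (1 / 2) ^ (Fintype.card I) * ∑ a, F a := by
  unfold Ex unif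
  rw [Finset.mul_sum]
  simp only [Finset.prod_const, Finset.card_univ]

/-- fill the positions in `T` with ones -/
def pl (T : Finset I) (a : I → Bool) : I → Bool := fun i => if i ∈ T then true else a i

lemma Ex_pl (T : Finset I) (G : (I → Bool) → ℝ) (hG : ∀ a, 0 ≤ G a) :
    (1 / 2 : ℝ) ^ T.card * Ex unif (fun a => G (pl T a)) ≤ Ex unif G := by
  have h := Ex_indep (I := I) unif_sum (fun b : Bool => b = true) T (fun a => G (pl T a)) (by
    intro i hi ω a
    have : pl T (Function.update ω i a) = pl T ω := by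
      funext j
      unfold pl
      by_cases hj : j ∈ T
      · simp [hj]
      · have : j ≠ i := fun h => hj (h ▸ hi)
        simp [hj, this]
    rw [this])
  have h1 : ∑ a ∈ univ.filter (fun b : Bool => b = true), unif a = 1 / 2 := by
    have : univ.filter (fun b : Bool => b = true) = {true} := by decide
    rw [this]
    simp [unif]
  rw [h1] at h
  rw [← h]
  refine Ex_mono unif_nonneg fun ω => ?_
  split_ifs with hω
  · have : pl T ω = ω := by
      funext j
      unfold pl
      by_cases hj : j ∈ T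
      · simp [hj, hω j hj]
      · simp [hj]
    rw [this, mul_one]
  · rw [mul_zero]
    exact hG ω

variable {m : ℕ} (pos : X → (Fin m → Bool) → Fin m → I) (Out : X → (I → Bool) → Bool)

/-- there is a hit in block `x` -/
def hit (x : X) (a : I → Bool) : Prop := ∃ w, ∀ i, a (pos x w i) = true

/-- all answers are right -/
def right (a : I → Bool) : Prop := ∀ x, (Out x a = true ↔ hit pos x a)

open Classical in
/-- blocks without a hit -/
noncomputable def Zs (a : I → Bool) : Finset X := univ.filter (fun x => ¬ hit pos x a)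

/-- positions which are planted -/
def T (σ : X → Option (Fin m → Bool)) : Finset I :=
  univ.biUnion fun x => (σ x).elim ∅ (fun w => univ.image (pos x w))

/-- the weight of a plantation -/
noncomputable def W (σ : X → Option (Fin m → Bool)) : ℝ := ∏ x, (σ x).elim 1 (fun _ => (1 / 2 : ℝ) ^ m)

omit [DecidableEq X] in
lemma mem_T {σ : X → Option (Fin m → Bool)} {j : I} :
    j ∈ T pos σ ↔ ∃ x w i, σ x = some w ∧ pos x w i = j := by
  unfold T
  simp only [Finset.mem_biUnion, Finset.mem_univ, true_and]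
  constructor
  · rintro ⟨x, hx⟩
    cases h : σ x with
    | none => rw [h] at hx; simp at hx
    | some w =>
      rw [h] at hx
      simp only [Option.elim_some, Finset.mem_image, Finset.mem_univ, true_and] at hx
      obtain ⟨i, hi⟩ := hx
      exact ⟨x, w, i, h, hi⟩
  · rintro ⟨x, w, i, h, hi⟩
    refine ⟨x, ?_⟩
    rw [h]
    simp only [Option.elim_some, Finset.mem_image, Finset.mem_univ, true_and]
    exact ⟨i, hi⟩

omit [DecidableEq X] in
lemma W_le (σ : X → Option (Fin m → Bool)) : W σ ≤ (1 / 2 : ℝ) ^ (T pos σ).card := by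
  have h1 : W σ = (1 / 2 : ℝ) ^ (∑ x, (σ x).elim 0 (fun _ => m)) := by
    unfold W
    rw [← Finset.prod_pow_eq_pow_sum]
    refine Finset.prod_congr rfl fun x _ => ?_
    cases σ x <;> simp
  have h2 : (T pos σ).card ≤ ∑ x, (σ x).elim 0 (fun _ => m) := by
    unfold T
    refine Finset.card_biUnion_le.trans (Finset.sum_le_sum fun x _ => ?_)
    cases σ x with
    | none => simp
    | some w =>
      simp only [Option.elim_some]
      refine Finset.card_image_le.trans ?_
      simp
  rw [h1]
  exact pow_le_pow_of_le_one (by norm_num) (by norm_num) h2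

omit [DecidableEq X] in
lemma W_nonneg (σ : X → Option (Fin m → Bool)) : 0 ≤ W σ := by
  unfold W
  refine Finset.prod_nonneg fun x _ => ?_
  cases σ x <;> simp

open Classical in
/-- decoding -/
noncomputable def dec (b : I → Bool) (x : X) : Option (Fin m → Bool) :=
  if (Out x b = true ↔ hit pos x b) then none
  else if h : hit pos x b then some h.choose else none

omit [Fintype I] [DecidableEq X] in
lemma pl_of_mem {T : Finset I} {a : I → Bool} {i : I} (h : i ∈ T) : pl T a i = true := by
  simp [pl, h]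

omit [Fintype I] [DecidableEq X] in
lemma pl_of_notMem {T : Finset I} {a : I → Bool} {i : I} (h : i ∉ T) : pl T a i = a i := by
  simp [pl, h]

/-- a valid plantation can be decoded -/
lemma dec_pl (hinj : Function.Injective (fun t : X × (Fin m → Bool) × Fin m => pos t.1 t.2.1 t.2.2))
    (Q : X → (I → Bool) → Finset I)
    (hQ : ∀ x a (a' : I → Bool), (∀ e ∈ Q x a, a' e = a e) → Out x a' = Out x a)
    (a : I → Bool) (ha : right pos Out a) (hm : 1 ≤ m) (σ : X → Option (Fin m → Bool))
    (hσ : ∀ x w, σ x = some w → ¬ hit pos x a ∧ ∀ i, ∀ y, pos x w i ∉ Q y a) :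
    dec pos Out (pl (T pos σ) a) = σ := by
  have hOut : ∀ x, Out x (pl (T pos σ) a) = Out x a := by
    intro x
    refine hQ x a _ fun e he => pl_of_notMem fun hT => ?_
    obtain ⟨y, w, i, h1, h2⟩ := (mem_T pos).1 hT
    exact (hσ y w h1).2 i x (h2 ▸ he)
  have hp : ∀ x w i, (∀ w', σ x = some w' → w' ≠ w) → pl (T pos σ) a (pos x w i) = a (pos x w i) := by
    intro x w i h
    refine pl_of_notMem fun hT => ?_
    obtain ⟨y, w', i', h1, h2⟩ := (mem_T pos).1 hT
    have := @hinj (y, w', i') (x, w, i) h2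
    simp only [Prod.mk.injEq] at this
    obtain ⟨rfl, rfl, rfl⟩ := this
    exact h _ h1 rfl
  funext x
  unfold dec
  cases h : σ x with
  | none =>
    rw [if_pos]
    rw [hOut x, ha x]
    unfold hit
    refine exists_congr fun w => forall_congr' fun i => ?_
    rw [hp x w i (by intro w' hw'; rw [h] at hw'; exact absurd hw' (by simp))]
  | some w =>
    have hw := (hσ x w h).1
    have hhit : hit pos x (pl (T pos σ) a) :=
      ⟨w, fun i => pl_of_mem ((mem_T pos).2 ⟨x, w, i, h, rfl⟩)⟩
    have hO : ¬ Out x (pl (T pos σ) a) = true := by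
      rw [hOut x, ha x]
      exact hw
    rw [if_neg (fun hh => hO (hh.2 hhit)), dif_pos hhit]
    congr 1
    by_contra hne
    apply hw
    refine ⟨hhit.choose, fun i => ?_⟩
    have h1 := hhit.choose_spec i
    rwa [hp x hhit.choose i] at h1
    intro w' hw'
    rw [h] at hw'
    have : w = w' := by simpa using hw'
    rw [← this]
    exact fun hh => hne hh.symm

/-- few slots are touched -/
lemma card_free (hinj : Function.Injective (fun t : X × (Fin m → Bool) × Fin m => pos t.1 t.2.1 t.2.2))
    (hm : 1 ≤ m) (U : Finset I) (x : X) :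
    2 ^ m ≤ (univ.filter (fun w : Fin m → Bool => ∀ i, pos x w i ∉ U)).card + U.card := by
  classical
  have h1 := Finset.card_filter_add_card_filter_not (s := (univ : Finset (Fin m → Bool)))
    (fun w : Fin m → Bool => ∀ i, pos x w i ∉ U)
  have h2 : (univ : Finset (Fin m → Bool)).card = 2 ^ m := by
    rw [Finset.card_univ, Fintype.card_fun, Fintype.card_bool, Fintype.card_fin]
  rw [h2] at h1
  have h3 : (univ.filter (fun w : Fin m → Bool => ¬ ∀ i, pos x w i ∉ U)).card ≤ U.card := by
    have hc : ∀ w ∈ univ.filter (fun w : Fin m → Bool => ¬ ∀ i, pos x w i ∉ U),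
        ∃ i, pos x w i ∈ U := by
      intro w hw
      have := (Finset.mem_filter.1 hw).2
      push Not at this
      exact this
    haveI : Nonempty (Fin m) := ⟨⟨0, hm⟩⟩
    choose! i hi using hc
    refine Finset.card_le_card_of_injOn (fun w => pos x w (i w)) hi ?_
    intro w _ w' _ h
    have := @hinj (x, w, i w) (x, w', i w') h
    simp only [Prod.mk.injEq] at this
    exact this.2.1
  omega

open Classical in
/-- Part A. -/
lemma partA (hinj : Function.Injective (fun t : X × (Fin m → Bool) × Fin m => pos t.1 t.2.1 t.2.2))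
    (q : ℕ) (hcert : ∀ x a, ∃ Q : Finset I, Q.card ≤ q ∧
      ∀ a' : I → Bool, (∀ e ∈ Q, a' e = a e) → Out x a' = Out x a)
    (hm : 1 ≤ m) (hq : 2 * (Fintype.card X * q) ≤ 2 ^ m) :
    Ex unif (fun a : I → Bool => if right pos Out a then (3 / 2 : ℝ) ^ (Zs pos a).card else 0) ≤ 1 := by
  choose Q hQ1 hQ2 using hcert
  set U : (I → Bool) → Finset I := fun a => univ.biUnion fun x => Q x a with hU
  set val : (I → Bool) → (X → Option (Fin m → Bool)) → Prop := fun a σ =>
    ∀ x w, σ x = some w → ¬ hit pos x a ∧ ∀ i, pos x w i ∉ U a with hval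
  have hUc : ∀ a, (U a).card ≤ Fintype.card X * q := by
    intro a
    refine Finset.card_biUnion_le.trans ?_
    refine (Finset.sum_le_sum fun x _ => hQ1 x a).trans ?_
    simp
  -- pointwise lower bound for the sum over the plantations
  have hpt : ∀ a, (3 / 2 : ℝ) ^ (Zs pos a).card ≤
      ∑ σ : X → Option (Fin m → Bool), (if val a σ then W σ else 0) := by
    intro a
    let f : X → Option (Fin m → Bool) → ℝ := fun x o =>
      o.elim 1 (fun w => if (¬ hit pos x a ∧ ∀ i, pos x w i ∉ U a) then (1 / 2 : ℝ) ^ m else 0)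
    have hf : ∀ σ : X → Option (Fin m → Bool), (if val a σ then W σ else 0) = ∏ x, f x (σ x) := by
      intro σ
      split_ifs with hv
      · unfold W
        refine Finset.prod_congr rfl fun x _ => ?_
        cases h : σ x with
        | none => simp [f]
        | some w => simp only [f, Option.elim_some]; rw [if_pos (hv x w h)]
      · simp only [hval] at hv
        push Not at hv
        obtain ⟨x, w, h1, h2⟩ := hv
        symm
        apply Finset.prod_eq_zero (Finset.mem_univ x)
        simp only [f, h1, Option.elim_some]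
        rw [if_neg]
        rintro ⟨h3, h4⟩
        obtain ⟨i, hi⟩ := h2 h3
        exact h4 i hi
    rw [Finset.sum_congr rfl fun σ _ => hf σ]
    have hprod : ∑ σ : X → Option (Fin m → Bool), ∏ x, f x (σ x) = ∏ x, ∑ o, f x o := by
      rw [Finset.prod_univ_sum, Fintype.piFinset_univ]
    rw [hprod]
    have hz : (3 / 2 : ℝ) ^ (Zs pos a).card = ∏ x, if ¬ hit pos x a then (3 / 2 : ℝ) else 1 := by
      rw [← Finset.prod_filter, Finset.prod_const]
      rfl
    rw [hz]
    refine Finset.prod_le_prod (fun x _ => by split_ifs <;> norm_num) fun x _ => ?_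
    rw [Fintype.sum_option]
    have hf0 : f x none = 1 := rfl
    rw [hf0]
    by_cases hx : ¬ hit pos x a
    · rw [if_pos hx]
      have h1 : ∑ w : Fin m → Bool, f x (some w) =
          ((univ.filter (fun w : Fin m → Bool => ∀ i, pos x w i ∉ U a)).card : ℝ) *
            (1 / 2 : ℝ) ^ m := by
        rw [Finset.sum_congr rfl (g := fun w : Fin m → Bool =>
          if (∀ i, pos x w i ∉ U a) then (1 / 2 : ℝ) ^ m else 0), ← Finset.sum_filter,
          Finset.sum_const, nsmul_eq_mul]
        intro w _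
        simp only [f, Option.elim_some]
        by_cases h : ∀ i, pos x w i ∉ U a
        · rw [if_pos h, if_pos ⟨hx, h⟩]
        · rw [if_neg h, if_neg (fun hh => h hh.2)]
      rw [h1]
      have h2 := card_free pos hinj hm (U a) x
      have h3 := hUc a
      have h4 : 2 ^ m ≤ 2 * (univ.filter (fun w : Fin m → Bool => ∀ i, pos x w i ∉ U a)).card := by
        omega
      have h5 : (2 : ℝ) ^ m ≤
          2 * ((univ.filter (fun w : Fin m → Bool => ∀ i, pos x w i ∉ U a)).card : ℝ) := by
        exact_mod_cast h4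
      have h6 : (2 : ℝ) ^ m * (1 / 2 : ℝ) ^ m = 1 := by
        rw [← mul_pow]; norm_num
      have h7 : (0 : ℝ) ≤ (1 / 2 : ℝ) ^ m := by positivity
      nlinarith [mul_le_mul_of_nonneg_right h5 h7]
    · rw [if_neg hx]
      have : 0 ≤ ∑ w : Fin m → Bool, f x (some w) := by
        refine Finset.sum_nonneg fun w _ => ?_
        simp only [f, Option.elim_some]
        split_ifs <;> positivity
      linarith
  -- the main chain
  have h1 : Ex unif (fun a : I → Bool => if right pos Out a then (3 / 2 : ℝ) ^ (Zs pos a).card else 0)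
      ≤ Ex unif (fun a : I → Bool => ∑ σ : X → Option (Fin m → Bool),
        (if right pos Out a ∧ val a σ then W σ else 0)) := by
    refine Ex_mono unif_nonneg fun a => ?_
    split_ifs with ha
    · refine (hpt a).trans (le_of_eq ?_)
      refine Finset.sum_congr rfl fun σ _ => ?_
      by_cases hv : val a σ
      · rw [if_pos hv, if_pos ⟨ha, hv⟩]
      · rw [if_neg hv, if_neg (fun hh => hv hh.2)]
    · refine Finset.sum_nonneg fun σ _ => ?_
      rw [if_neg (fun hh => ha hh.1)]
  refine h1.trans ?_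
  rw [Ex_sum]
  have h2 : ∀ σ : X → Option (Fin m → Bool),
      Ex unif (fun a : I → Bool => (if right pos Out a ∧ val a σ then W σ else 0)) ≤
      Ex unif (fun b : I → Bool => if dec pos Out b = σ then (1 : ℝ) else 0) := by
    intro σ
    have h3 : Ex unif (fun a : I → Bool => (if right pos Out a ∧ val a σ then W σ else 0)) ≤
        Ex unif (fun a : I → Bool => W σ *
          (fun b : I → Bool => if dec pos Out b = σ then (1 : ℝ) else 0) (pl (T pos σ) a)) := by
      refine Ex_mono unif_nonneg fun a => ?_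
      split_ifs with ha
      · have : dec pos Out (pl (T pos σ) a) = σ := by
          refine dec_pl pos Out hinj Q (fun x a a' h => hQ2 x a a' h) a ha.1 hm σ ?_
          intro x w hw
          refine ⟨(ha.2 x w hw).1, fun i y hy => (ha.2 x w hw).2 i ?_⟩
          simp only [hU, Finset.mem_biUnion, Finset.mem_univ, true_and]
          exact ⟨y, hy⟩
        simp only [this, if_true, mul_one, le_refl]
      · refine mul_nonneg (W_nonneg σ) ?_
        show 0 ≤ if dec pos Out (pl (T pos σ) a) = σ then (1 : ℝ) else 0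
        split_ifs <;> norm_num
    refine h3.trans ?_
    rw [Ex_smul]
    have h4 := Ex_pl (T pos σ) (fun b : I → Bool => if dec pos Out b = σ then (1 : ℝ) else 0)
      (fun b => by split_ifs <;> norm_num)
    refine le_trans (mul_le_mul_of_nonneg_right (W_le pos σ) ?_) h4
    refine Ex_nonneg unif_nonneg fun a => ?_
    show 0 ≤ if dec pos Out (pl (T pos σ) a) = σ then (1 : ℝ) else 0
    split_ifs <;> norm_num
  refine (Finset.sum_le_sum fun σ _ => h2 σ).trans ?_
  rw [← Ex_sum]
  have h5 : (fun b : I → Bool => ∑ σ : X → Option (Fin m → Bool),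
      if dec pos Out b = σ then (1 : ℝ) else 0) = fun _ => 1 := by
    funext b
    rw [Finset.sum_ite_eq]
    simp
  rw [h5, Ex_const unif_sum]

/-- reading the values at injectively chosen positions -/
lemma Ex_comp {J : Type} [Fintype J] [DecidableEq J] (e : J → I) (he : Function.Injective e)
    (F : (J → Bool) → ℝ) : Ex unif (fun a : I → Bool => F (fun j => a (e j))) = Ex unif F := by
  classical
  rw [Ex_unif, Ex_unif]
  let p : I → Prop := fun i => i ∈ Set.range e
  let eJ : J ≃ {i // p i} := Equiv.ofInjective e he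
  have h1 : ∑ a : I → Bool, F (fun j => a (e j)) =
      ∑ uv : ({i // p i} → Bool) × ({i // ¬ p i} → Bool), F (fun j => uv.1 (eJ j)) := by
    refine Fintype.sum_equiv (Equiv.piEquivPiSubtypeProd p (fun _ => Bool)) _ _ fun a => ?_
    rfl
  rw [h1, Fintype.sum_prod_type]
  simp only [Finset.sum_const, Finset.card_univ, nsmul_eq_mul]
  rw [← Finset.mul_sum]
  have h2 : ∑ u : {i // p i} → Bool, F (fun j => u (eJ j)) = ∑ b : J → Bool, F b := by
    refine Fintype.sum_equiv (Equiv.arrowCongr eJ.symm (Equiv.refl Bool)) _ _ fun u => ?_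
    rfl
  rw [h2]
  have h3 : Fintype.card I = Fintype.card J + Fintype.card {i // ¬ p i} := by
    rw [Fintype.card_congr eJ, ← Fintype.card_sum]
    exact (Fintype.card_congr (Equiv.sumCompl p)).symm
  rw [h3, pow_add, Fintype.card_fun, Fintype.card_bool, ← mul_assoc]
  push_cast
  have h4 : (1 / 2 : ℝ) ^ Fintype.card {i // ¬ p i} * 2 ^ Fintype.card {i // ¬ p i} = 1 := by
    rw [← mul_pow]; norm_num
  rw [mul_assoc ((1 / 2 : ℝ) ^ Fintype.card J), h4, mul_one]

lemma quarter (m : ℕ) (hm : 1 ≤ m) : (1 / 4 : ℝ) ≤ (1 - (1 / 2) ^ m) ^ (2 ^ m) := by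
  induction m, hm using Nat.le_induction with
  | base => norm_num
  | succ m hm ih =>
    refine ih.trans ?_
    rw [pow_succ 2 m, mul_comm (2 ^ m) 2, pow_mul]
    have h0 : (1 / 2 : ℝ) ^ m ≤ 1 := pow_le_one₀ (by norm_num) (by norm_num)
    have h1 : (0 : ℝ) ≤ (1 / 2) ^ m := by positivity
    refine pow_le_pow_left₀ (by linarith) ?_ _
    rw [pow_succ (1 / 2 : ℝ) m]
    nlinarith

open Classical in
/-- Part B. -/
lemma partB (hinj : Function.Injective (fun t : X × (Fin m → Bool) × Fin m => pos t.1 t.2.1 t.2.2))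
    (hm : 1 ≤ m) :
    Ex unif (fun a : I → Bool => (1 / 2 : ℝ) ^ (Zs pos a).card) ≤ (7 / 8) ^ Fintype.card X := by
  have h1 : (fun a : I → Bool => (1 / 2 : ℝ) ^ (Zs pos a).card) = fun a : I → Bool =>
      (fun b : X × (Fin m → Bool) × Fin m → Bool =>
        ∏ x, if ∃ w, ∀ i, b (x, w, i) = true then (1 : ℝ) else 1 / 2)
        (fun j => a ((fun t : X × (Fin m → Bool) × Fin m => pos t.1 t.2.1 t.2.2) j)) := by
    funext a
    have : (1 / 2 : ℝ) ^ (Zs pos a).card = ∏ x, if ¬ hit pos x a then (1 / 2 : ℝ) else 1 := by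
      rw [← Finset.prod_filter, Finset.prod_const]
      rfl
    rw [this]
    refine Finset.prod_congr rfl fun x _ => ?_
    by_cases h : hit pos x a
    · rw [if_neg (not_not.2 h)]
      have h' : ∃ w, ∀ i, a (pos x w i) = true := h
      exact (if_pos h').symm
    · rw [if_pos h]
      have h' : ¬ ∃ w, ∀ i, a (pos x w i) = true := h
      exact (if_neg h').symm
  rw [h1]
  refine le_of_eq_of_le (Ex_comp (fun t : X × (Fin m → Bool) × Fin m => pos t.1 t.2.1 t.2.2) hinj
    (fun b : X × (Fin m → Bool) × Fin m → Bool =>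
      ∏ x, if ∃ w, ∀ i, b (x, w, i) = true then (1 : ℝ) else 1 / 2)) ?_
  rw [Ex_unif]
  -- curry
  have h2 : ∑ b : X × (Fin m → Bool) × Fin m → Bool,
      (∏ x, if ∃ w, ∀ i, b (x, w, i) = true then (1 : ℝ) else 1 / 2) =
      ∑ c : X → (Fin m → Bool) → Fin m → Bool,
        ∏ x, if ∃ w, ∀ i, c x w i = true then (1 : ℝ) else 1 / 2 := by
    refine Fintype.sum_equiv ((Equiv.curry X ((Fin m → Bool) × Fin m) Bool).trans
      (Equiv.arrowCongr (Equiv.refl X) (Equiv.curry (Fin m → Bool) (Fin m) Bool))) _ _ fun b => ?_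
    rfl
  rw [h2]
  have h3 : ∑ c : X → (Fin m → Bool) → Fin m → Bool,
        (∏ x, if ∃ w, ∀ i, c x w i = true then (1 : ℝ) else 1 / 2) =
      ∏ _x : X, ∑ y : (Fin m → Bool) → Fin m → Bool,
        if ∃ w, ∀ i, y w i = true then (1 : ℝ) else 1 / 2 := by
    rw [Finset.prod_univ_sum, Fintype.piFinset_univ]
  rw [h3, Finset.prod_const, Finset.card_univ]
  -- one block
  set N : ℕ := 2 ^ m with hN
  have hcardS : Fintype.card (Fin m → Bool) = N := by
    rw [Fintype.card_fun, Fintype.card_bool, Fintype.card_fin]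
  have h4 : ∑ y : (Fin m → Bool) → Fin m → Bool,
        (if ∃ w, ∀ i, y w i = true then (1 : ℝ) else 1 / 2) =
      (N : ℝ) ^ N - 1 / 2 * ((N : ℝ) - 1) ^ N := by
    have h5 : ∀ y : (Fin m → Bool) → Fin m → Bool,
        (if ∃ w, ∀ i, y w i = true then (1 : ℝ) else 1 / 2) =
        1 - 1 / 2 * ∏ w, (if y w = (fun _ => true) then (0 : ℝ) else 1) := by
      intro y
      by_cases h : ∃ w, ∀ i, y w i = true
      · rw [if_pos h]
        obtain ⟨w, hw⟩ := h
        have hz : ∏ w, (if y w = (fun _ => true) then (0 : ℝ) else 1) = 0 :=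
          Finset.prod_eq_zero (Finset.mem_univ w) (if_pos (funext hw))
        rw [hz]
        norm_num
      · rw [if_neg h]
        have : ∏ w, (if y w = (fun _ => true) then (0 : ℝ) else 1) = 1 := by
          refine Finset.prod_eq_one fun w _ => if_neg fun hw => h ⟨w, fun i => ?_⟩
          rw [hw]
        rw [this]
        norm_num
    rw [Finset.sum_congr rfl fun y _ => h5 y, Finset.sum_sub_distrib, ← Finset.mul_sum]
    have h6 : ∑ y : (Fin m → Bool) → Fin m → Bool,
        ∏ w, (if y w = (fun _ => true) then (0 : ℝ) else 1) = ((N : ℝ) - 1) ^ N := by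
      have h7 : ∑ y : (Fin m → Bool) → Fin m → Bool,
          (∏ w, (if y w = (fun _ => true) then (0 : ℝ) else 1)) =
          ∏ _w : Fin m → Bool, ∑ v : Fin m → Bool, (if v = (fun _ => true) then (0 : ℝ) else 1) := by
        rw [Finset.prod_univ_sum, Fintype.piFinset_univ]
      rw [h7, Finset.prod_const, Finset.card_univ, hcardS]
      congr 1
      have h8 : ∀ v : Fin m → Bool, (if v = (fun _ => true) then (0 : ℝ) else 1) =
          1 - (if v = (fun _ => true) then (1 : ℝ) else 0) := by
        intro v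
        split_ifs <;> norm_num
      rw [Finset.sum_congr rfl fun v _ => h8 v, Finset.sum_sub_distrib, Finset.sum_const,
        Finset.card_univ, hcardS, nsmul_eq_mul, mul_one, Finset.sum_ite_eq']
      simp
    rw [h6, Finset.sum_const, Finset.card_univ, Fintype.card_fun, hcardS, nsmul_eq_mul, mul_one]
    push_cast
    rfl
  rw [h4]
  have hcard : Fintype.card (X × (Fin m → Bool) × Fin m) = m * N * Fintype.card X := by
    rw [Fintype.card_prod, Fintype.card_prod, hcardS, Fintype.card_fin]
    ring
  rw [hcard, pow_mul, ← mul_pow, pow_mul]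
  have hNr : (N : ℝ) = 2 ^ m := by simp [hN]
  have h9 : ((1 / 2 : ℝ) ^ m) ^ N * ((N : ℝ) ^ N - 1 / 2 * ((N : ℝ) - 1) ^ N) =
      1 - 1 / 2 * (1 - (1 / 2) ^ m) ^ N := by
    rw [mul_sub, ← mul_pow, mul_left_comm, ← mul_pow, hNr, ← mul_pow]
    congr 1
    · norm_num
    · congr 2
      rw [mul_sub, ← mul_pow]
      norm_num
  rw [h9]
  have h10 := quarter m hm
  have h11 : (1 - (1 / 2 : ℝ) ^ m) ^ N ≤ 1 := by
    refine pow_le_one₀ ?_ ?_
    · have : (1 / 2 : ℝ) ^ m ≤ 1 := pow_le_one₀ (by norm_num) (by norm_num)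
      linarith
    · have : (0 : ℝ) ≤ (1 / 2 : ℝ) ^ m := by positivity
      linarith
  refine pow_le_pow_left₀ (by linarith) (by rw [hN] at *; linarith) _

end T1

theorem t_plant : St_plant := by
  intro I X hI hdI hX m q pos Out hinj hcert hm hq
  classical
  have hA := T1.partA pos Out hinj q hcert hm hq
  have hB := T1.partB pos hinj hm
  set K := Fintype.card X with hK
  set t := K / 8 with ht
  have hpt : ∀ a : I → Bool, (if ∀ x, (Out x a = true ↔ ∃ w, ∀ i, a (pos x w i) = true)
      then (1 : ℝ) else 0) ≤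
      (2 / 3) ^ t * (if T1.right pos Out a then (3 / 2 : ℝ) ^ (T1.Zs pos a).card else 0) +
      2 ^ t * (1 / 2 : ℝ) ^ (T1.Zs pos a).card := by
    intro a
    have h0 : (0 : ℝ) ≤ 2 ^ t * (1 / 2 : ℝ) ^ (T1.Zs pos a).card := by positivity
    split_ifs with h1 h2 h2
    · by_cases h3 : t ≤ (T1.Zs pos a).card
      · have h4 : (3 / 2 : ℝ) ^ t ≤ (3 / 2 : ℝ) ^ (T1.Zs pos a).card :=
          pow_le_pow_right₀ (by norm_num) h3
        have h5 : (2 / 3 : ℝ) ^ t * (3 / 2 : ℝ) ^ t = 1 := by rw [← mul_pow]; norm_num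
        have h6 := mul_le_mul_of_nonneg_left h4 (by positivity : (0 : ℝ) ≤ (2 / 3) ^ t)
        linarith
      · have h4 : (1 / 2 : ℝ) ^ t ≤ (1 / 2 : ℝ) ^ (T1.Zs pos a).card :=
          pow_le_pow_of_le_one (by norm_num) (by norm_num) (by omega)
        have h5 : (2 : ℝ) ^ t * (1 / 2 : ℝ) ^ t = 1 := by rw [← mul_pow]; norm_num
        have h6 := mul_le_mul_of_nonneg_left h4 (by positivity : (0 : ℝ) ≤ 2 ^ t)
        have h7 : (0 : ℝ) ≤ (2 / 3) ^ t * (3 / 2 : ℝ) ^ (T1.Zs pos a).card := by positivity
        linarith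
    · exact absurd h1 h2
    · have : (0 : ℝ) ≤ (2 / 3) ^ t * (3 / 2 : ℝ) ^ (T1.Zs pos a).card := by positivity
      linarith
    · simpa using h0
  refine (Ex_mono T1.unif_nonneg hpt).trans ?_
  rw [Ex_add, Ex_smul, Ex_smul]
  have h1 : (2 / 3 : ℝ) ^ t * Ex unif (fun a : I → Bool =>
      if T1.right pos Out a then (3 / 2 : ℝ) ^ (T1.Zs pos a).card else 0) ≤ (2 / 3) ^ t := by
    have := mul_le_mul_of_nonneg_left hA (by positivity : (0 : ℝ) ≤ (2 / 3) ^ t)
    linarith
  have h2 : (2 : ℝ) ^ t * Ex unif (fun a : I → Bool => (1 / 2 : ℝ) ^ (T1.Zs pos a).card) ≤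
      (2 * (7 / 8) ^ 8) ^ t := by
    have h3 := mul_le_mul_of_nonneg_left hB (by positivity : (0 : ℝ) ≤ 2 ^ t)
    refine h3.trans ?_
    rw [mul_pow, ← pow_mul]
    refine mul_le_mul_of_nonneg_left ?_ (by positivity)
    exact pow_le_pow_of_le_one (by norm_num) (by norm_num) (by omega)
  exact add_le_add h1 h2

end Pool.Agent.H752.GM
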